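import Pool.Agent.Helper86.Poly.Goals2
import Pool.Agent.Helper77.Poly.BL

/-! Packet DS: the volume of a direct sum of regular simplices. -/

set_option autoImplicit false

namespace Pool.Agent.Helper58.Poly

open Pool.Agent.Helper86.Poly MeasureTheory Set
open Pool.Agent.Helper77.Poly.PkBL (pt_same pt_ne sq_same vol_ofLp int_ofLp)

namespace PkDS

lemma inner_class {V : Type*} [NormedAddCommGroup V] [InnerProductSpace ℝ V] {m : ℕ}
    (p : Fin (m + 1) → V) (hd : ∀ α β, α ≠ β → dist (p α) (p β) = 1) (h0 : ∑ α, p α = 0)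
    (α β : Fin (m + 1)) : inner ℝ (p α) (p β) =
      if α = β then (m : ℝ) / (2 * ((m : ℝ) + 1)) else -1 / (2 * ((m : ℝ) + 1)) := by
  classical
  have hm : (0 : ℝ) < (m : ℝ) + 1 := by positivity
  have h1 : ∀ α β, inner ℝ (p α) (p β) =
      (‖p α‖ ^ 2 + ‖p β‖ ^ 2 - (if α = β then 0 else 1)) / 2 := by
    intro α β
    by_cases h : α = β
    · subst h
      rw [if_pos rfl, real_inner_self_eq_norm_sq]
      ring
    · rw [if_neg h]
      have h2 := hd α β h
      rw [dist_eq_norm] at h2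
      have h3 := norm_sub_sq_real (p α) (p β)
      rw [h2] at h3
      linarith
  have h2 : ∀ α, ((m : ℝ) + 1) * ‖p α‖ ^ 2 + ∑ β, ‖p β‖ ^ 2 = m := by
    intro α
    have e : inner ℝ (p α) (∑ β, p β) = 0 := by rw [h0, inner_zero_right]
    rw [inner_sum, Finset.sum_congr rfl (fun β _ => h1 α β), ← Finset.sum_div,
      Finset.sum_sub_distrib, Finset.sum_add_distrib] at e
    have e2 : ∑ β : Fin (m + 1), (if α = β then (0 : ℝ) else 1) = m := by
      have : ∀ β : Fin (m + 1), (if α = β then (0 : ℝ) else 1) = 1 - (if α = β then 1 else 0) := by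
        intro β
        by_cases h : α = β
        · rw [if_pos h, if_pos h]; ring
        · rw [if_neg h, if_neg h]; ring
      rw [Finset.sum_congr rfl (fun β _ => this β), Finset.sum_sub_distrib]
      simp
    rw [e2] at e
    simp only [Finset.sum_const, Finset.card_univ, Fintype.card_fin, nsmul_eq_mul] at e
    push_cast at e
    linarith
  have h3 : ∑ β, ‖p β‖ ^ 2 = (m : ℝ) / 2 := by
    have e := Finset.sum_congr rfl (fun α (_ : α ∈ Finset.univ) => h2 α)
    rw [Finset.sum_add_distrib, ← Finset.mul_sum] at e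
    simp only [Finset.sum_const, Finset.card_univ, Fintype.card_fin, nsmul_eq_mul] at e
    push_cast at e
    have : ((m : ℝ) + 1) * (∑ β, ‖p β‖ ^ 2 - (m : ℝ) / 2) = 0 := by linarith
    rcases mul_eq_zero.1 this with h | h
    · exact absurd h hm.ne'
    · linarith
  have h4 : ∀ α, ‖p α‖ ^ 2 = (m : ℝ) / (2 * ((m : ℝ) + 1)) := by
    intro α
    have := h2 α
    rw [h3] at this
    rw [eq_div_iff (by positivity)]
    linarith
  rw [h1, h4, h4]
  by_cases h : α = β
  · rw [if_pos h, if_pos h]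
    ring
  · rw [if_neg h, if_neg h]
    field_simp
    ring

lemma exists_iso {d : ℕ} {X : Type} [Fintype X] (p q : X → E d)
    (h : ∀ x y, inner ℝ (p x) (p y) = inner ℝ (q x) (q y)) :
    ∃ T : E d ≃ₗᵢ[ℝ] E d, ∀ x, T (q x) = p x := by
  classical
  let P : (X → ℝ) →ₗ[ℝ] E d := Fintype.linearCombination ℝ p
  let Q : (X → ℝ) →ₗ[ℝ] E d := Fintype.linearCombination ℝ q
  have hP : ∀ c, P c = ∑ x, c x • p x := fun c => Fintype.linearCombination_apply ℝ p c
  have hQ : ∀ c, Q c = ∑ x, c x • q x := fun c => Fintype.linearCombination_apply ℝ q c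
  have hn : ∀ c, ‖P c‖ = ‖Q c‖ := by
    intro c
    have h1 : ‖P c‖ ^ 2 = ‖Q c‖ ^ 2 := by
      rw [← real_inner_self_eq_norm_sq, ← real_inner_self_eq_norm_sq, hP, hQ, sum_inner, sum_inner]
      refine Finset.sum_congr rfl (fun x _ => ?_)
      rw [inner_sum, inner_sum]
      refine Finset.sum_congr rfl (fun y _ => ?_)
      rw [inner_smul_left, inner_smul_right, inner_smul_left, inner_smul_right, h]
    exact (pow_left_inj₀ (norm_nonneg _) (norm_nonneg _) two_ne_zero).1 h1
  obtain ⟨g, hg⟩ := LinearMap.exists_rightInverse_of_surjective Q.rangeRestrict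
    (LinearMap.range_rangeRestrict Q)
  have hg' : ∀ y : LinearMap.range Q, Q (g y) = y := by
    intro y
    have := LinearMap.congr_fun hg y
    exact congrArg Subtype.val this
  let L : LinearMap.range Q →ₗᵢ[ℝ] E d :=
    { toLinearMap := P ∘ₗ g
      norm_map' := fun y => by
        show ‖P (g y)‖ = ‖y‖
        rw [hn, hg']
        rfl }
  have hL : ∀ y, L y = P (g y) := fun y => rfl
  let T0 : E d →ₗᵢ[ℝ] E d := L.extend
  let T : E d ≃ₗᵢ[ℝ] E d := T0.toLinearIsometryEquiv rfl
  refine ⟨T, fun x => ?_⟩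
  have hqx : Q (Pi.single x 1) = q x := by
    rw [hQ]
    simp [Pi.single_apply]
  have hpx : P (Pi.single x 1) = p x := by
    rw [hP]
    simp [Pi.single_apply]
  have hmem : q x ∈ LinearMap.range Q := ⟨_, hqx⟩
  have h1 : T (q x) = L ⟨q x, hmem⟩ := by
    show T0 (q x) = _
    exact LinearIsometry.extend_apply L ⟨q x, hmem⟩
  rw [h1, hL]
  have h2 : P (g ⟨q x, hmem⟩ - Pi.single x 1) = 0 := by
    rw [← norm_eq_zero, hn, map_sub, hg', hqx, sub_self, norm_zero]
  rw [map_sub, hpx, sub_eq_zero] at h2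
  exact h2

lemma vol_eq {d : ℕ} {X : Type} [Fintype X] (p q : X → E d)
    (h : ∀ x y, inner ℝ (p x) (p y) = inner ℝ (q x) (q y)) :
    volume (convexHull ℝ (range p)) = volume (convexHull ℝ (range q)) := by
  obtain ⟨T, hT⟩ := exists_iso p q h
  have hP : convexHull ℝ (range p) = T '' convexHull ℝ (range q) := by
    have h := T.toLinearEquiv.toLinearMap.image_convexHull (range q)
    have h2 : T.toLinearEquiv.toLinearMap '' (range q) = range p := by
      rw [← range_comp]
      congr 1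
      funext x
      exact hT x
    rw [h2] at h
    exact h.symm
  have hconv : Convex ℝ (convexHull ℝ (range p)) := convex_convexHull _ _
  have h1 : volume (T ⁻¹' convexHull ℝ (range p)) = volume (convexHull ℝ (range p)) :=
    T.measurePreserving.measure_preimage (hconv.nullMeasurableSet volume)
  rw [← h1]
  congr 1
  rw [hP]
  exact preimage_image_eq _ T.injective

/-- the conditions -/
def Cond {d k : ℕ} (b : Fin k → ℕ) (p : (Σ i, Fin (b i + 1)) → E d) : Prop :=
  (∀ i (α β : Fin (b i + 1)), α ≠ β → dist (p ⟨i, α⟩) (p ⟨i, β⟩) = 1) ∧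
  (∀ i, ∑ α, p ⟨i, α⟩ = 0) ∧
  (∀ i j, i ≠ j → ∀ (α : Fin (b i + 1)) (β : Fin (b j + 1)), inner ℝ (p ⟨i, α⟩) (p ⟨j, β⟩) = 0)

lemma cond_inner {d k : ℕ} {b : Fin k → ℕ} {p q : (Σ i, Fin (b i + 1)) → E d}
    (hp : Cond b p) (hq : Cond b q) (x y : Σ i, Fin (b i + 1)) :
    inner ℝ (p x) (p y) = inner ℝ (q x) (q y) := by
  obtain ⟨i, α⟩ := x
  obtain ⟨j, β⟩ := y
  by_cases hij : i = j
  · subst hij
    rw [inner_class (fun α => p ⟨i, α⟩) (hp.1 i) (hp.2.1 i) α β,
      inner_class (fun α => q ⟨i, α⟩) (hq.1 i) (hq.2.1 i) α β]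
  · rw [hp.2.2 i j hij, hq.2.2 i j hij]

lemma exists_std (hBV : G_BV) (hRS : G_RS) (d k : ℕ) (b : Fin k → ℕ) (hk : 1 ≤ k)
    (hd : d = ∑ i, b i) : ∃ q : (Σ i, Fin (b i + 1)) → E d, Cond b q ∧
      ((d.factorial : ℝ) * (volume (convexHull ℝ (range q))).toReal) ^ 2 * 2 ^ d =
        ∏ i, ((b i : ℝ) + 1) := by
  classical
  choose S hS1 hS2 hS3 hS4 hS5 using hRS
  set c' : Fin k → Fin 0 → ℝ := fun _ => 0 with hc'
  set s' : (i : Fin k) → Fin (b i + 1) → Fin (b i) → ℝ := fun i α => (S (b i) α).ofLp with hs'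
  have hne : Nonempty (Fin k) := ⟨⟨0, hk⟩⟩
  -- properties of the simplices
  have hs1 : ∀ i (α β : Fin (b i + 1)), α ≠ β → ∑ k, (s' i α k - s' i β k) ^ 2 = 1 := by
    intro i α β hαβ
    have h := hS1 (b i) α β hαβ
    rw [EuclideanSpace.dist_eq, Real.sqrt_eq_one] at h
    rw [← h]
    refine Finset.sum_congr rfl (fun k _ => ?_)
    rw [Real.dist_eq, sq_abs]
  have hs3 : ∀ i, ∑ α, s' i α = 0 := by
    intro i
    have h := congrArg (PiLp.continuousLinearEquiv 2 ℝ fun _ : Fin (b i) => ℝ) (hS2 (b i))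
    rw [map_sum, map_zero] at h
    exact h
  have hs4 : ∀ i, (0 : Fin (b i) → ℝ) ∈ interior (convexHull ℝ (range (s' i))) := by
    intro i
    have h : interior (convexHull ℝ (range (s' i))) = _ := int_ofLp (S (b i))
    rw [h]
    exact ⟨0, hS4 (b i), map_zero _⟩
  have hcu : convexHull ℝ (range c') = univ := by
    apply eq_univ_of_forall
    intro x
    have : x = c' ⟨0, hk⟩ := Subsingleton.elim _ _
    rw [this]
    exact subset_convexHull ℝ _ (mem_range_self (⟨0, hk⟩ : Fin k))
  have hc4 : (interior (convexHull ℝ (range c'))).Nonempty := by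
    rw [hcu, interior_univ]
    exact univ_nonempty
  have hvc : volume (convexHull ℝ (range c')) = 1 := by
    rw [hcu]
    simp [volume_pi]
  have hvS : ∀ i, volume (convexHull ℝ (range (s' i))) = volume (convexHull ℝ (range (S (b i)))) :=
    fun i => vol_ofLp (S (b i))
  have hvol := hBV (Fin k) 0 b c' s' hs3 hs4 hc4
  -- the transport to Euclidean space
  have hcard : Fintype.card (Fin 0 ⊕ (Σ i, Fin (b i))) = d := by
    rw [hd]; simp [Fintype.card_sum, Fintype.card_sigma]
  let e : (Fin 0 ⊕ (Σ i, Fin (b i))) ≃ Fin d := Fintype.equivFinOfCardEq hcard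
  let Ψ : EuclideanSpace ℝ (Fin 0 ⊕ (Σ i, Fin (b i))) ≃ₗᵢ[ℝ] E d :=
    LinearIsometryEquiv.piLpCongrLeft 2 ℝ ℝ e
  let p : (Σ i, Fin (b i + 1)) → EuclideanSpace ℝ (Fin 0 ⊕ (Σ i, Fin (b i))) :=
    fun x => WithLp.toLp 2 (pt c' s' x)
  let q : (Σ i, Fin (b i + 1)) → E d := fun x => Ψ (p x)
  have hp : ∀ x, (p x).ofLp = pt c' s' x := fun x => rfl
  have hdist : ∀ x y, dist (q x) (q y) = Real.sqrt (∑ k, (pt c' s' x k - pt c' s' y k) ^ 2) := by
    intro x y
    rw [show dist (q x) (q y) = dist (p x) (p y) from Ψ.dist_map (p x) (p y),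
      EuclideanSpace.dist_eq]
    congr 1
    refine Finset.sum_congr rfl (fun k _ => ?_)
    rw [Real.dist_eq, sq_abs]
  set P : Set (E d) := convexHull ℝ (range q) with hP
  have hconv : Convex ℝ P := convex_convexHull _ _
  -- volume of P
  have hPp : P = Ψ '' convexHull ℝ (range p) := by
    have h := Ψ.toLinearEquiv.toLinearMap.image_convexHull (range p)
    have h2 : Ψ.toLinearEquiv.toLinearMap '' (range p) = range q := by
      rw [← range_comp]
      rfl
    rw [h2] at h
    exact h.symm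
  have hvP : volume P = volume (convexHull ℝ (range (pt c' s'))) := by
    have h1 : volume (Ψ ⁻¹' P) = volume P :=
      Ψ.measurePreserving.measure_preimage (hconv.nullMeasurableSet volume)
    have h2 : Ψ ⁻¹' P = convexHull ℝ (range p) := by
      rw [hPp]
      exact preimage_image_eq _ Ψ.injective
    rw [← h1, h2]
    exact (vol_ofLp p).symm
  refine ⟨q, ⟨?_, ?_, ?_⟩, ?_⟩
  · intro i α β hαβ
    rw [hdist, sq_same, hs1 i α β hαβ, Real.sqrt_one]
  · intro i
    show ∑ α, Ψ (p ⟨i, α⟩) = 0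
    rw [← map_sum]
    have h0 : ∑ α, p ⟨i, α⟩ = 0 := by
      ext z
      rw [WithLp.ofLp_sum, Finset.sum_apply]
      show ∑ α, pt c' s' ⟨i, α⟩ z = 0
      rcases z with z | ⟨j, z⟩
      · exact z.elim0
      · by_cases hij : i = j
        · subst hij
          simp_rw [pt_same]
          have := congrFun (hs3 i) z
          rw [Finset.sum_apply] at this
          exact this
        · refine Finset.sum_eq_zero (fun α _ => ?_)
          exact pt_ne c' s' i j hij α z
    rw [h0, map_zero]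
  · intro i j hij α β
    show inner ℝ (Ψ (p ⟨i, α⟩)) (Ψ (p ⟨j, β⟩)) = 0
    rw [Ψ.inner_map_map, PiLp.inner_apply]
    refine Finset.sum_eq_zero (fun z _ => ?_)
    show inner ℝ (pt c' s' ⟨i, α⟩ z) (pt c' s' ⟨j, β⟩ z) = 0
    rcases z with z | ⟨l, z⟩
    · exact z.elim0
    · by_cases hil : i = l
      · subst hil
        rw [pt_ne c' s' j i (Ne.symm hij), inner_zero_right]
      · rw [pt_ne c' s' i l hil, inner_zero_left]
  · have h1 := congrArg ENNReal.toReal hvol
    rw [ENNReal.toReal_mul, ENNReal.toReal_mul, ENNReal.toReal_mul, ENNReal.toReal_prod,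
      ENNReal.toReal_natCast, ENNReal.toReal_natCast, ← hvP, hvc, Nat.zero_add, ← hd] at h1
    have h2 : ∀ i, (((b i).factorial : ENNReal) * volume (convexHull ℝ (range (s' i)))).toReal =
        ((b i).factorial : ℝ) * (volume (convexHull ℝ (range (S (b i))))).toReal := by
      intro i
      rw [ENNReal.toReal_mul, ENNReal.toReal_natCast, hvS]
    rw [Finset.prod_congr rfl (fun i _ => h2 i)] at h1
    rw [h1, mul_pow, ← Finset.prod_pow, Finset.prod_congr rfl (fun i _ => hS5 (b i)),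
      Finset.prod_div_distrib, Finset.prod_pow_eq_pow_sum]
    rw [← hd]
    have h3 : (2 : ℝ) ^ d ≠ 0 := by positivity
    simp only [Nat.factorial_zero, Nat.cast_one, ENNReal.toReal_one, mul_one, one_pow, one_mul]
    field_simp

theorem thm (hBV : G_BV) (hRS : G_RS) : G_DS := by
  intro d k b p hk hd h1 h2 h3
  obtain ⟨q, hq, hv⟩ := exists_std hBV hRS d k b hk hd
  rw [← hv, vol_eq p q (cond_inner ⟨h1, h2, h3⟩ hq)]

end PkDS

end Pool.Agent.Helper58.Poly
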